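import Mathlib
import Pool.Agent.Helper647.MM.Defs

set_option autoImplicit false

open Set Topology Filter

namespace Pool.Agent.Y449.SOK

/-- `X` is a Sokolov space: for every sequence of closed sets `F n ⊆ X ^ n` there is a continuous
map `f : X → X` whose image has a countable network and which satisfies `f ^ n (F n) ⊆ F n` for
every `n`. -/
def Sokolov (X : Type) [TopologicalSpace X] : Prop :=
  ∀ F : (n : ℕ) → Set (Fin n → X), (∀ n, IsClosed (F n)) →
    ∃ f : X → X, Continuous f ∧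
      (∃ 𝒩 : Set (Set X), 𝒩.Countable ∧ (∀ N ∈ 𝒩, N ⊆ Set.range f) ∧
        ∀ x ∈ Set.range f, ∀ V : Set X, IsOpen V → x ∈ V → ∃ N ∈ 𝒩, x ∈ N ∧ N ⊆ V) ∧
      ∀ n, ∀ x ∈ F n, (fun i => f (x i)) ∈ F n

/-- `p (C_p (X)) = ω`: every point-finite family of nonempty open subsets of `C_p(X)` is
countable (`C_p(X)` is the set of continuous functions `X → ℝ` with the topology inherited from
the product `X → ℝ`). -/
def CountablePointFiniteCellularity (X : Type) [TopologicalSpace X] : Prop :=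
  ∀ 𝒰 : Set (Set {g : X → ℝ // Continuous g}),
    (∀ U ∈ 𝒰, IsOpen U ∧ U.Nonempty) →
    (∀ g : {g : X → ℝ // Continuous g}, {U | U ∈ 𝒰 ∧ g ∈ U}.Finite) →
    𝒰.Countable

/-- the two ways of stating `p (C_p (X)) = ω` are equivalent -/
lemma cpfc_iff (X : Type) [TopologicalSpace X] :
    CountablePointFiniteCellularity X ↔
      Pool.Agent.Helper647.MM.CountablePointFiniteCellularity X := by
  classical
  let e : {g : X → ℝ // Continuous g} ≃ C(X, ℝ) :=
    ⟨fun g => ⟨g.1, g.2⟩, fun g => ⟨g, g.continuous⟩, fun _ => rfl, fun _ => rfl⟩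
  have hopen : ∀ W : Set C(X, ℝ),
      IsOpen[TopologicalSpace.induced (fun f : C(X, ℝ) => (⇑f : X → ℝ))
        (inferInstance : TopologicalSpace (X → ℝ))] W ↔ IsOpen (e ⁻¹' W) := by
    intro W
    rw [isOpen_induced_iff, isOpen_induced_iff]
    constructor
    · rintro ⟨O, hO, rfl⟩
      exact ⟨O, hO, rfl⟩
    · rintro ⟨O, hO, h⟩
      refine ⟨O, hO, ?_⟩
      ext g
      exact (Set.ext_iff.1 h (e.symm g))
  constructor
  · intro h 𝒰 h1 h2
    have h3 := h ((fun W => e ⁻¹' W) '' 𝒰) (by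
      rintro _ ⟨W, hW, rfl⟩
      exact ⟨(hopen W).1 (h1 W hW).1, (h1 W hW).2.preimage e.surjective⟩) (by
      intro g
      refine ((h2 (e g)).image fun W => e ⁻¹' W).subset ?_
      rintro _ ⟨⟨W, hW, rfl⟩, hg⟩
      exact ⟨W, ⟨hW, hg⟩, rfl⟩)
    exact Set.countable_of_injective_of_countable_image
      (f := fun W => e ⁻¹' W) (e.surjective.preimage_injective.injOn) h3
  · intro h 𝒰 h1 h2
    have h3 := h ((fun W => e.symm ⁻¹' W) '' 𝒰) (by
      rintro _ ⟨W, hW, rfl⟩
      refine ⟨(hopen _).2 ?_, (h1 W hW).2.preimage e.symm.surjective⟩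
      have : e ⁻¹' (e.symm ⁻¹' W) = W := by
        ext g; simp
      rw [this]
      exact (h1 W hW).1) (by
      intro g
      refine ((h2 (e.symm g)).image fun W => e.symm ⁻¹' W).subset ?_
      rintro _ ⟨⟨W, hW, rfl⟩, hg⟩
      exact ⟨W, ⟨hW, hg⟩, rfl⟩)
    exact Set.countable_of_injective_of_countable_image
      (f := fun W => e.symm ⁻¹' W) (e.symm.surjective.preimage_injective.injOn) h3

end Pool.Agent.Y449.SOK
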