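import Mathlib
import Pool.Agent.Helper647.MM.NegSide

set_option autoImplicit false
set_option linter.all false

open Set Topology Filter

namespace Pool.Agent.Y449.SOK

open Pool.Agent.Helper647.GR.ForceCH (Om)
open Pool.Agent.Helper647.MM (mk_Om countable_Iio countable_Iic bdd_of_countable Lim IsClubS
  DiamondS club_closure exists_rec U exists_cyl thin exists_gt_Om mk_U exists_enc countable_below)

/-- the basic compact open neighbourhood of the point `u` -/
def Nb (c : Om → U → Option ℕ) (u : U) : Set U := {v | v = u ∨ (v.1 < u.1 ∧ c u.1 v = some u.2)}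

lemma self_mem_Nb (c : Om → U → Option ℕ) (u : U) : u ∈ Nb c u := Or.inl rfl

lemma Nb_le {c : Om → U → Option ℕ} {u v : U} (h : v ∈ Nb c u) : v.1 ≤ u.1 := by
  rcases h with h | h
  · rw [h]
  · exact h.1.le

lemma Nb_lt {c : Om → U → Option ℕ} {u v : U} (h : v ∈ Nb c u) (hne : v ≠ u) : v.1 < u.1 := by
  rcases h with h | h
  · exact absurd h hne
  · exact h.1

/-- `f` is locally constant below `a` -/
def LC (c : Om → U → Option ℕ) (a : Om) (f : U → Option ℕ) : Prop :=
  ∀ u : U, u.1 < a → ∃ F : Finset U, (∀ v ∈ F, v.1 < u.1) ∧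
    ∀ z ∈ Nb c u, (∀ v ∈ F, z ∉ Nb c v) → f z = f u

/-- the new neighbourhoods are compact below each `δ ∈ S` -/
def CS (S : Set Om) (c : Om → U → Option ℕ) (a : Om) (f : U → Option ℕ) : Prop :=
  ∀ δ ∈ S, δ ≤ a → ∃ F : Finset U, (∀ v ∈ F, v.1 < a) ∧
    ∀ z : U, z.1 < a → f z ≠ none → (∀ v ∈ F, z ∉ Nb c v) → δ ≤ z.1

/-- membership in each `Nb c w` is locally decided -/
lemma decide_one (c : Om → U → Option ℕ) (a : Om) (h : ∀ b < a, LC c b (c b)) (u w : U)
    (hw : w.1 < a) :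
    ∃ F : Finset U, (∀ v ∈ F, v.1 < u.1) ∧
      ∀ z ∈ Nb c u, (∀ v ∈ F, z ∉ Nb c v) → (z ∈ Nb c w ↔ u ∈ Nb c w) := by
  classical
  by_cases hwu : w = u
  · subst hwu
    exact ⟨∅, by simp, fun z hz _ => ⟨fun _ => self_mem_Nb c w, fun _ => hz⟩⟩
  rcases lt_trichotomy w.1 u.1 with hlt | heq | hgt
  · refine ⟨{w}, by simpa using hlt, fun z hz hF => ⟨fun h => absurd h (hF w (by simp)), fun h => ?_⟩⟩
    exact absurd (Nb_le h) (not_le.2 hlt)
  · refine ⟨∅, by simp, fun z hz _ => ⟨fun h => ?_, fun h => ?_⟩⟩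
    · exfalso
      rcases hz with hz | hz
      · subst hz
        have := Nb_lt h (Ne.symm hwu)
        exact absurd heq (ne_of_gt this)
      · rcases h with h | h
        · rw [h] at hz
          exact absurd heq (ne_of_lt hz.1)
        · have h1 := hz.2
          have h2 := h.2
          rw [heq] at h2
          exact hwu (Prod.ext heq (Option.some.inj (h2.symm.trans h1)))
    · exfalso
      have := Nb_lt h (Ne.symm hwu)
      exact absurd heq (ne_of_gt this)
  · obtain ⟨F, hF, hF2⟩ := h w.1 hw u hgt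
    refine ⟨F, hF, fun z hz hzF => ?_⟩
    have h1 := hF2 z hz hzF
    have hz1 : z.1 < w.1 := lt_of_le_of_lt (Nb_le hz) hgt
    constructor
    · intro h2
      rcases h2 with h2 | h2
      · rw [h2] at hz1
        exact absurd hz1 (lt_irrefl _)
      · exact Or.inr ⟨hgt, h1 ▸ h2.2⟩
    · intro h2
      rcases h2 with h2 | h2
      · exact absurd h2.symm hwu
      · exact Or.inr ⟨hz1, h1.trans h2.2⟩

/-- the same for finitely many sets -/
lemma decide_fin (c : Om → U → Option ℕ) (a : Om) (h : ∀ b < a, LC c b (c b)) (u : U)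
    (G : Finset U) (hG : ∀ w ∈ G, w.1 < a) :
    ∃ F : Finset U, (∀ v ∈ F, v.1 < u.1) ∧
      ∀ z ∈ Nb c u, (∀ v ∈ F, z ∉ Nb c v) → ∀ w ∈ G, (z ∈ Nb c w ↔ u ∈ Nb c w) := by
  classical
  induction G using Finset.induction_on with
  | empty => exact ⟨∅, by simp, by simp⟩
  | insert w G hw ih =>
    obtain ⟨F, hF, hF2⟩ := ih (fun v hv => hG v (Finset.mem_insert_of_mem hv))
    obtain ⟨F', hF', hF2'⟩ := decide_one c a h u w (hG w (Finset.mem_insert_self _ _))
    refine ⟨F ∪ F', fun v hv => ?_, fun z hz hzF v hv => ?_⟩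
    · rcases Finset.mem_union.1 hv with hv | hv
      · exact hF v hv
      · exact hF' v hv
    · rcases Finset.mem_insert.1 hv with rfl | hv
      · exact hF2' z hz fun v hv => hzF v (Finset.mem_union_right _ hv)
      · exact hF2 z hz (fun v hv => hzF v (Finset.mem_union_left _ hv)) v hv

/-- near a point of level at least `δ ∈ S` all points have level at least `δ` -/
lemma cs_at {S : Set Om} {c : Om → U → Option ℕ} (u : U) (h : CS S c u.1 (c u.1)) (δ : Om)
    (hδ : δ ∈ S) (hle : δ ≤ u.1) :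
    ∃ F : Finset U, (∀ v ∈ F, v.1 < u.1) ∧ ∀ z ∈ Nb c u, (∀ v ∈ F, z ∉ Nb c v) → δ ≤ z.1 := by
  obtain ⟨F, hF, hF2⟩ := h δ hδ hle
  refine ⟨F, hF, fun z hz hzF => ?_⟩
  rcases hz with rfl | hz
  · exact hle
  · exact hF2 z hz.1 (by rw [hz.2]; simp) hzF

/-- The family `D` of finite sets of labelled points escapes from all initial segments of the
space below `a`. -/
def Esc (a : Om) (D : Set (Finset (ℕ × U))) : Prop :=
  ∀ γ < a, ∃ t ∈ D, ∀ p ∈ t, γ < p.2.1 ∧ p.2.1 < a

/-- the points in each member of `D` are labelled injectively -/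
def Lab (D : Set (Finset (ℕ × U))) : Prop :=
  ∀ t ∈ D, ∀ p ∈ t, ∀ q ∈ t, p.2 = q.2 → p = q

/-- `a` is a limit of elements of `S` -/
def SLim (S : Set Om) (a : Om) : Prop := (∃ b, b < a) ∧ ∀ γ < a, ∃ s ∈ S, γ < s ∧ s < a

/-- the requirement on the function `f` chosen at the stage `a` -/
def Q (S : Set Om) (D : Om → Set (Finset (ℕ × U))) (a : Om) (c : Om → U → Option ℕ)
    (f : U → Option ℕ) : Prop :=
  LC c a f ∧ CS S c a f ∧ (a ∉ S → SLim S a → Lab (D a) → Esc a (D a) →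
    ∃ l : ℕ → Finset (ℕ × U), (∀ k, l k ∈ D a) ∧
      (∀ k, ∀ p ∈ l k, p.2.1 < a ∧ f p.2 = some p.1) ∧
      ∀ γ < a, ∃ m, ∀ k ≥ m, ∀ p ∈ l k, γ < p.2.1)

lemma exists_S_above {S : Set Om} {a : Om} (h : SLim S a) (B : Finset Om) (hB : ∀ b ∈ B, b < a) :
    ∃ s ∈ S, s < a ∧ ∀ b ∈ B, b < s := by
  classical
  induction B using Finset.induction_on with
  | empty =>
    obtain ⟨b, hb⟩ := h.1
    obtain ⟨s, hs, _, hs2⟩ := h.2 b hb
    exact ⟨s, hs, hs2, by simp⟩
  | insert b B hb ih =>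
    obtain ⟨s, hs, hs2, hs3⟩ := ih fun x hx => hB x (Finset.mem_insert_of_mem hx)
    obtain ⟨s', hs', h1, h2⟩ := h.2 (max s b) (max_lt hs2 (hB b (Finset.mem_insert_self _ _)))
    refine ⟨s', hs', h2, fun x hx => ?_⟩
    rcases Finset.mem_insert.1 hx with rfl | hx
    · exact (le_max_right _ _).trans_lt h1
    · exact ((hs3 x hx).le.trans (le_max_left _ _)).trans_lt h1

lemma exists_stage (S : Set Om) (D : Set (Finset (ℕ × U))) (a : Om) (c : Om → U → Option ℕ)
    (h : ∀ b < a, LC c b (c b)) (hS : ∀ b < a, CS S c b (c b)) :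
    ∃ f : U → Option ℕ, LC c a f ∧ CS S c a f ∧ (a ∉ S → SLim S a → Lab D → Esc a D →
    ∃ l : ℕ → Finset (ℕ × U), (∀ k, l k ∈ D) ∧
      (∀ k, ∀ p ∈ l k, p.2.1 < a ∧ f p.2 = some p.1) ∧
      ∀ γ < a, ∃ m, ∀ k ≥ m, ∀ p ∈ l k, γ < p.2.1) := by
  classical
  by_cases hD : a ∉ S ∧ SLim S a ∧ Lab D ∧ Esc a D
  swap
  · refine ⟨fun _ => none, fun u _ => ⟨∅, by simp, fun _ _ _ => rfl⟩,
      fun δ _ _ => ⟨∅, by simp, fun z _ hz _ => absurd rfl hz⟩, ?_⟩
    intro h1 h2 h3 h4
    exact absurd ⟨h1, h2, h3, h4⟩ hD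
  obtain ⟨haS, hSL, hinj, hE⟩ := hD
  have hne : (Iio a).Nonempty := hSL.1
  obtain ⟨e, he⟩ := (countable_Iio a).exists_eq_range hne
  have he1 : ∀ m, e m < a := fun m => by
    have : e m ∈ Iio a := he ▸ mem_range_self m
    exact this
  have he2 : ∀ v < a, ∃ m, e m = v := fun v hv => by
    have : v ∈ Iio a := hv
    rw [he] at this
    exact this
  choose! T hT1 hT2 using hE
  have hN : ∀ (γ : Om) (k : ℕ), ∃ s, γ < a → s ∈ S ∧ s < a ∧ γ < s ∧ e k < s ∧
      ∀ p ∈ T γ, p.2.1 < s := by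
    intro γ k
    by_cases hγ : γ < a
    · obtain ⟨s, hs, hs2, hs3⟩ := exists_S_above hSL ({γ, e k} ∪ (T γ).image fun p => p.2.1) (by
        intro b hb
        simp only [Finset.mem_union, Finset.mem_insert, Finset.mem_singleton,
          Finset.mem_image] at hb
        rcases hb with (rfl | rfl) | ⟨p, hp, rfl⟩
        · exact hγ
        · exact he1 k
        · exact (hT2 γ hγ p hp).2)
      refine ⟨s, fun _ => ⟨hs, hs2, hs3 _ (by simp), hs3 _ (by simp), fun p hp => hs3 _ ?_⟩⟩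
      simp only [Finset.mem_union, Finset.mem_image]
      exact Or.inr ⟨p, hp, rfl⟩
    · exact ⟨γ, fun h => absurd h hγ⟩
  choose N hN using hN
  obtain ⟨s0, hs0, hs0a, -⟩ := exists_S_above hSL ∅ (by simp)
  obtain ⟨s, hs_zero, hs_succ⟩ : ∃ s : ℕ → Om, s 0 = s0 ∧ ∀ k, s (k + 1) = N (s k) k :=
    ⟨fun k => Nat.rec s0 (fun k γ => N γ k) k, rfl, fun _ => rfl⟩
  have hsa : ∀ k, s k < a := by
    intro k
    induction k with
    | zero => rw [hs_zero]; exact hs0a
    | succ k ih => rw [hs_succ]; exact (hN (s k) k ih).2.1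
  have hsS : ∀ k, s k ∈ S := by
    intro k
    cases k with
    | zero => rw [hs_zero]; exact hs0
    | succ k => rw [hs_succ]; exact (hN (s k) k (hsa k)).1
  have hslt : ∀ k, s k < s (k + 1) := fun k => by
    rw [hs_succ]; exact (hN (s k) k (hsa k)).2.2.1
  have hsmono : StrictMono s := strictMono_nat_of_lt_succ hslt
  have hse : ∀ k, e k < s (k + 1) := fun k => by
    rw [hs_succ]; exact (hN (s k) k (hsa k)).2.2.2.1
  let l : ℕ → Finset (ℕ × U) := fun k => T (s k)
  have hl1 : ∀ k, l k ∈ D := fun k => hT1 (s k) (hsa k)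
  have hl2 : ∀ k, ∀ p ∈ l k, s k < p.2.1 := fun k p hp => (hT2 (s k) (hsa k) p hp).1
  have hl3 : ∀ k, ∀ p ∈ l k, p.2.1 < s (k + 1) := fun k p hp => by
    rw [hs_succ]; exact (hN (s k) k (hsa k)).2.2.2.2 p hp
  have hl4 : ∀ k, ∀ p ∈ l k, p.2.1 < a := fun k p hp => (hl3 k p hp).trans (hsa (k + 1))
  let Sel : U → (ℕ × U) → ℕ → Prop := fun z p k =>
    s k ≤ z.1 ∧ p ∈ l k ∧ z ∈ Nb c p.2 ∧ ∀ q ∈ l k, z ∈ Nb c q.2 → p.2.1 ≤ q.2.1
  have hSel_lt : ∀ z p k, Sel z p k → z.1 < s (k + 1) := fun z p k hz =>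
    (Nb_le hz.2.2.1).trans_lt (hl3 k p hz.2.1)
  have hSel_uniq : ∀ z p p' k k', Sel z p k → Sel z p' k' → k = k' := by
    intro z p p' k k' h1 h2
    have h3 : s k < s (k' + 1) := h1.1.trans_lt (hSel_lt _ _ _ h2)
    have h4 : s k' < s (k + 1) := h2.1.trans_lt (hSel_lt _ _ _ h1)
    have h5 := hsmono.lt_iff_lt.1 h3
    have h6 := hsmono.lt_iff_lt.1 h4
    omega
  let R : U → ℕ → Prop := fun z j => ∃ k p, Sel z p k ∧ p.1 = j
  let g : (ℕ → Prop) → Option ℕ := fun P => if hz : ∃ j, P j then some hz.choose else none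
  let f : U → Option ℕ := fun z => g (R z)
  have hf_congr : ∀ z u, (∀ j, R z j ↔ R u j) → f z = f u := by
    intro z u hzu
    have : R z = R u := funext fun j => propext (hzu j)
    exact congrArg g this
  refine ⟨f, ?_, ?_, fun _ _ _ _ => ⟨l, hl1, fun k p hp => ⟨hl4 k p hp, ?_⟩, ?_⟩⟩
  · -- locally constant
    intro u hu
    by_cases hu0 : u.1 < s 0
    · refine ⟨∅, by simp, fun z hz _ => hf_congr z u fun j => ?_⟩
      have hno : ∀ y : U, y.1 < s 0 → ¬ R y j := by
        rintro y hy ⟨k, p, hp, -⟩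
        exact absurd ((hsmono.monotone (Nat.zero_le k)).trans hp.1) (not_le.2 hy)
      exact iff_of_false (hno z ((Nb_le hz).trans_lt hu0)) (hno u hu0)
    · obtain ⟨m, hm⟩ := he2 u.1 hu
      have hex : ∃ k, u.1 < s k := ⟨m + 1, hm ▸ hse m⟩
      obtain ⟨k0, hk0, hk0'⟩ : ∃ k0, s k0 ≤ u.1 ∧ u.1 < s (k0 + 1) := by
        have h1 : Nat.find hex ≠ 0 := by
          intro h0
          have := Nat.find_spec hex
          rw [h0] at this
          exact hu0 this
        obtain ⟨k0, hk0⟩ := Nat.exists_eq_succ_of_ne_zero h1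
        refine ⟨k0, not_lt.1 (Nat.find_min hex (by omega)), ?_⟩
        have := Nat.find_spec hex
        rw [hk0] at this
        exact this
      obtain ⟨F, hF, hF2⟩ := decide_fin c a h u ((l k0).image Prod.snd) (fun w hw => by
        obtain ⟨p, hp, rfl⟩ := Finset.mem_image.1 hw
        exact hl4 k0 p hp)
      obtain ⟨F', hF', hF2'⟩ := cs_at u (hS u.1 hu) (s k0) (hsS k0) hk0
      refine ⟨F ∪ F', fun v hv => ?_, fun z hz hzF => hf_congr z u fun j => ?_⟩
      · rcases Finset.mem_union.1 hv with hv | hv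
        · exact hF v hv
        · exact hF' v hv
      have hdec := hF2 z hz fun v hv => hzF v (Finset.mem_union_left _ hv)
      have hz0 := hF2' z hz fun v hv => hzF v (Finset.mem_union_right _ hv)
      have hz1 : z.1 < s (k0 + 1) := (Nb_le hz).trans_lt hk0'
      have hk_eq : ∀ y : U, s k0 ≤ y.1 → y.1 < s (k0 + 1) → ∀ p k, Sel y p k → k = k0 := by
        intro y hy hy' p k hp
        have h3 : s k < s (k0 + 1) := hp.1.trans_lt hy'
        have h4 : s k0 < s (k + 1) := hy.trans_lt (hSel_lt _ _ _ hp)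
        have h5 := hsmono.lt_iff_lt.1 h3
        have h6 := hsmono.lt_iff_lt.1 h4
        omega
      have hdec' : ∀ q ∈ l k0, (z ∈ Nb c q.2 ↔ u ∈ Nb c q.2) := fun q hq =>
        hdec q.2 (Finset.mem_image.2 ⟨q, hq, rfl⟩)
      have key : ∀ p k, Sel z p k ↔ Sel u p k := by
        intro p k
        constructor
        · intro hp
          have hk := hk_eq z hz0 hz1 p k hp
          subst hk
          exact ⟨hk0, hp.2.1, (hdec' p hp.2.1).1 hp.2.2.1, fun q hq huq =>
            hp.2.2.2 q hq ((hdec' q hq).2 huq)⟩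
        · intro hp
          have hk := hk_eq u hk0 hk0' p k hp
          subst hk
          exact ⟨hz0, hp.2.1, (hdec' p hp.2.1).2 hp.2.2.1, fun q hq huq =>
            hp.2.2.2 q hq ((hdec' q hq).1 huq)⟩
      constructor
      · rintro ⟨k, p, hp, hj⟩
        exact ⟨k, p, (key p k).1 hp, hj⟩
      · rintro ⟨k, p, hp, hj⟩
        exact ⟨k, p, (key p k).2 hp, hj⟩
  · -- closedness of the initial segments
    intro δ hδ hle
    have hδa : δ < a := lt_of_le_of_ne hle fun h' => haS (h' ▸ hδ)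
    obtain ⟨m, hm⟩ := he2 δ hδa
    refine ⟨(Finset.range (m + 1)).biUnion fun k => (l k).image Prod.snd, fun v hv => ?_,
      fun z hz hfz hzF => ?_⟩
    · simp only [Finset.mem_biUnion, Finset.mem_image] at hv
      obtain ⟨k, _, p, hp, rfl⟩ := hv
      exact hl4 k p hp
    · have hex : ∃ j, R z j := by
        by_contra hcon
        exact hfz (dif_neg hcon)
      obtain ⟨j, k, p, hp, -⟩ := hex
      have hk : m + 1 ≤ k := by
        by_contra hcon
        refine hzF p.2 ?_ hp.2.2.1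
        simp only [Finset.mem_biUnion, Finset.mem_image, Finset.mem_range]
        exact ⟨k, by omega, p, hp.2.1, rfl⟩
      calc δ ≤ s (m + 1) := by rw [← hm]; exact (hse m).le
        _ ≤ s k := hsmono.monotone hk
        _ ≤ z.1 := hp.1
  · -- the label
    have hsel : Sel p.2 p k := ⟨(hl2 k p hp).le, hp, self_mem_Nb c _, fun q hq hpq => Nb_le hpq⟩
    have hz : ∃ j, R p.2 j := ⟨p.1, k, p, hsel, rfl⟩
    have : f p.2 = some hz.choose := dif_pos hz
    rw [this]
    obtain ⟨k', p', hp', hj⟩ := hz.choose_spec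
    have hkk : k' = k := hSel_uniq _ _ _ _ _ hp' hsel
    subst hkk
    have h1 : p'.2.1 ≤ p.2.1 := hp'.2.2.2 p hp (self_mem_Nb c _)
    have h2 : p.2 = p'.2 := by
      by_contra hne'
      exact absurd (Nb_lt hp'.2.2.1 hne') (not_lt.2 h1)
    have h3 : p = p' := hinj (l k') (hl1 k') p hp p' hp'.2.1 h2
    exact congrArg some (hj.symm.trans (congrArg Prod.fst h3).symm)
  · -- escape
    intro γ hγ
    obtain ⟨m, hm⟩ := he2 γ hγ
    refine ⟨m + 1, fun k hk p hp => ?_⟩
    calc γ < s (m + 1) := by rw [← hm]; exact hse m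
      _ ≤ s k := hsmono.monotone hk
      _ < p.2.1 := hl2 k p hp

lemma Nb_congr {c c' : Om → U → Option ℕ} {a : Om} (h : ∀ b < a, c b = c' b) {u : U}
    (hu : u.1 < a) : Nb c u = Nb c' u := by
  simp only [Nb, h u.1 hu]

/-- the transfinite construction -/
lemma exists_space (S : Set Om) (D : Om → Set (Finset (ℕ × U))) :
    ∃ c : Om → U → Option ℕ, ∀ a, Q S D a c (c a) := by
  refine exists_rec (Q S D) ?_ ?_
  · rintro a c c' f hcc ⟨h1, h2, h3⟩
    refine ⟨?_, ?_, h3⟩
    · intro u hu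
      obtain ⟨F, hF, hF2⟩ := h1 u hu
      refine ⟨F, hF, fun z hz hzF => hF2 z ?_ fun v hv => ?_⟩
      · rwa [Nb_congr hcc hu]
      · rw [Nb_congr hcc ((hF v hv).trans hu)]
        exact hzF v hv
    · intro δ hδ hle
      obtain ⟨F, hF, hF2⟩ := h2 δ hδ hle
      refine ⟨F, hF, fun z hz hfz hzF => hF2 z hz hfz fun v hv => ?_⟩
      rw [Nb_congr hcc (hF v hv)]
      exact hzF v hv
  · intro a c hc
    obtain ⟨f, hf⟩ := exists_stage S (D a) a c (fun b hb => (hc b hb).1)
      (fun b hb => (hc b hb).2.1)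
    exact ⟨f, hf⟩

/-- the compact space: the points and one point at infinity -/
def KK (c : Om → U → Option ℕ) : Type := Option U

/-- a point of the locally compact space as a point of the compact space -/
def pt {c : Om → U → Option ℕ} (u : U) : KK c := (some u : Option U)

/-- the point at infinity -/
def inf {c : Om → U → Option ℕ} : KK c := (none : Option U)

lemma KK_cases {c : Om → U → Option ℕ} (z : KK c) : z = inf ∨ ∃ u, z = pt u :=
  match z with
  | none => Or.inl rfl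
  | some u => Or.inr ⟨u, rfl⟩

lemma pt_inj {c : Om → U → Option ℕ} {u v : U} (h : (pt u : KK c) = pt v) : u = v :=
  Option.some_inj.1 h

lemma pt_ne {c : Om → U → Option ℕ} {u : U} : (pt u : KK c) ≠ inf := fun h => by
  have : (some u : Option U) = none := h
  exact absurd this (by simp)

/-- `z` is a point of the set `Nb c w` -/
def Mem {c : Om → U → Option ℕ} (z : KK c) (w : U) : Prop := ∃ u, z = pt u ∧ u ∈ Nb c w

open Classical in
/-- the coordinates of the point `z` -/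
noncomputable def Phi (c : Om → U → Option ℕ) (z : KK c) : U → Bool := fun w => decide (Mem z w)

noncomputable instance (c : Om → U → Option ℕ) : TopologicalSpace (KK c) :=
  TopologicalSpace.induced (Phi c) inferInstance

lemma Phi_eq {c : Om → U → Option ℕ} {z z' : KK c} {w : U} :
    Phi c z w = Phi c z' w ↔ (Mem z w ↔ Mem z' w) := by
  simp [Phi]

lemma mem_inf {c : Om → U → Option ℕ} {w : U} : ¬ Mem (inf : KK c) w := by
  rintro ⟨u, h, _⟩
  exact pt_ne h.symm

lemma mem_pt {c : Om → U → Option ℕ} {u w : U} : Mem (pt u : KK c) w ↔ u ∈ Nb c w := by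
  constructor
  · rintro ⟨v, h, h'⟩
    rwa [pt_inj h]
  · exact fun h => ⟨u, rfl, h⟩

lemma le_nhds_iff' {c : Om → U → Option ℕ} (l : Filter (KK c)) (z : KK c) :
    l ≤ 𝓝 z ↔ ∀ w, ∀ᶠ y in l, (Mem y w ↔ Mem z w) := by
  have h1 : l ≤ 𝓝 z ↔ Tendsto (Phi c) l (𝓝 (Phi c z)) := by
    rw [nhds_induced]
    exact map_le_iff_le_comap.symm
  rw [h1, tendsto_pi_nhds]
  refine forall_congr' fun w => ?_
  rw [nhds_discrete, tendsto_pure]
  exact eventually_congr (Eventually.of_forall fun y => Phi_eq)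

lemma cont_Phi (c : Om → U → Option ℕ) : Continuous (Phi c) := continuous_induced_dom

lemma clopen_mem (c : Om → U → Option ℕ) (w : U) : IsClopen {y : KK c | Mem y w} := by
  have : {y : KK c | Mem y w} = (fun y => Phi c y w) ⁻¹' {true} := by
    ext y
    simp [Phi]
  rw [this]
  exact (isClopen_discrete _).preimage ((continuous_apply w).comp (cont_Phi c))

lemma sep {c : Om → U → Option ℕ} {z z' : KK c} (h : z ≠ z') :
    ∃ w, (z = pt w ∨ z' = pt w) ∧ ¬ (Mem z w ↔ Mem z' w) := by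
  rcases KK_cases z with rfl | ⟨u, rfl⟩ <;> rcases KK_cases z' with rfl | ⟨v, rfl⟩
  · exact absurd rfl h
  · exact ⟨v, Or.inr rfl, fun h => mem_inf (h.2 (mem_pt.2 (self_mem_Nb c v)))⟩
  · exact ⟨u, Or.inl rfl, fun h => mem_inf (h.1 (mem_pt.2 (self_mem_Nb c u)))⟩
  · have hne : u ≠ v := fun h' => h (by rw [h'])
    rcases le_total u.1 v.1 with hle | hle
    · refine ⟨u, Or.inl rfl, fun h' => ?_⟩
      have := mem_pt.1 (h'.1 (mem_pt.2 (self_mem_Nb c u)))
      exact absurd (Nb_lt this (Ne.symm hne)) (not_lt.2 hle)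
    · refine ⟨v, Or.inr rfl, fun h' => ?_⟩
      have := mem_pt.1 (h'.2 (mem_pt.2 (self_mem_Nb c v)))
      exact absurd (Nb_lt this hne) (not_lt.2 hle)

lemma inj_Phi (c : Om → U → Option ℕ) : Function.Injective (Phi c) := by
  intro z z' h
  by_contra hne
  obtain ⟨w, _, hw⟩ := sep hne
  exact hw (Phi_eq.1 (congrFun h w))

instance (c : Om → U → Option ℕ) : T2Space (KK c) :=
  (Topology.IsEmbedding.mk ⟨rfl⟩ (inj_Phi c)).t2Space

lemma decide_all {c : Om → U → Option ℕ} (h : ∀ a, LC c a (c a)) (u w : U) :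
    ∃ F : Finset U, (∀ v ∈ F, v.1 < u.1) ∧
      ∀ z ∈ Nb c u, (∀ v ∈ F, z ∉ Nb c v) → (z ∈ Nb c w ↔ u ∈ Nb c w) := by
  obtain ⟨a, ha⟩ := exists_gt_Om w.1
  exact decide_one c a (fun b _ => h b) u w ha

lemma compact_KK {c : Om → U → Option ℕ} (h : ∀ a, LC c a (c a)) : CompactSpace (KK c) := by
  refine ⟨isCompact_iff_ultrafilter_le_nhds.2 fun l _ => ?_⟩
  by_cases hl : ∃ w : U, ∀ᶠ y in (l : Filter (KK c)), Mem y w
  · obtain ⟨a, ha, hmin⟩ := WellFounded.has_min (wellFounded_lt (α := Om))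
      {a | ∃ w : U, w.1 = a ∧ ∀ᶠ y in (l : Filter (KK c)), Mem y w}
      ⟨hl.choose.1, hl.choose, rfl, hl.choose_spec⟩
    obtain ⟨u, hu, hul⟩ := ha
    refine ⟨pt u, mem_univ _, (le_nhds_iff' _ _).2 fun w => ?_⟩
    obtain ⟨F, hF, hF2⟩ := decide_all h u w
    have hF3 : ∀ᶠ y in (l : Filter (KK c)), ∀ v ∈ F, ¬ Mem y v := by
      rw [Filter.eventually_all_finset]
      intro v hv
      rw [Ultrafilter.eventually_not]
      intro hcon
      exact hmin v.1 ⟨v, rfl, hcon⟩ (hu ▸ hF v hv)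
    filter_upwards [hul, hF3] with y hy1 hy2
    obtain ⟨z, rfl, hz⟩ := hy1
    rw [mem_pt, mem_pt]
    exact hF2 z hz fun v hv hzv => hy2 v hv (mem_pt.2 hzv)
  · push Not at hl
    refine ⟨inf, mem_univ _, (le_nhds_iff' _ _).2 fun w => ?_⟩
    have := hl w
    have h2 : ∀ᶠ y in (l : Filter (KK c)), ¬ Mem y w := this
    filter_upwards [h2] with y hy
    exact ⟨fun h => absurd h hy, fun h => absurd h mem_inf⟩

/-- the points of level below `δ` form an open set -/
lemma isOpen_lower (c : Om → U → Option ℕ) (δ : Om) :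
    IsOpen {z : KK c | ∃ u, z = pt u ∧ u.1 < δ} := by
  have : {z : KK c | ∃ u, z = pt u ∧ u.1 < δ} = ⋃ w ∈ {w : U | w.1 < δ}, {y : KK c | Mem y w} := by
    ext z
    simp only [mem_setOf_eq, mem_iUnion, exists_prop]
    constructor
    · rintro ⟨u, rfl, hu⟩
      exact ⟨u, hu, mem_pt.2 (self_mem_Nb c u)⟩
    · rintro ⟨w, hw, u, rfl, hu⟩
      exact ⟨u, rfl, (Nb_le hu).trans_lt hw⟩
  rw [this]
  exact isOpen_biUnion fun w _ => (clopen_mem c w).2

/-- the points of level at least `δ ∈ S` form an open set -/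
lemma isOpen_upper {S : Set Om} {c : Om → U → Option ℕ} (h : ∀ a, CS S c a (c a)) (δ : Om)
    (hδ : δ ∈ S) : IsOpen {z : KK c | ∃ u, z = pt u ∧ δ ≤ u.1} := by
  rw [isOpen_iff_mem_nhds]
  rintro _ ⟨u, rfl, hu⟩
  obtain ⟨F, hF, hF2⟩ := cs_at u (h u.1) δ hδ hu
  have h1 : IsOpen ({y : KK c | Mem y u} ∩ ⋂ v ∈ F, {y : KK c | Mem y v}ᶜ) := by
    refine (clopen_mem c u).2.inter ?_
    exact isOpen_biInter_finset fun v _ => (clopen_mem c v).1.isOpen_compl
  refine Filter.mem_of_superset (h1.mem_nhds ⟨mem_pt.2 (self_mem_Nb c u), ?_⟩) ?_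
  · simp only [mem_iInter, mem_compl_iff, mem_setOf_eq, mem_pt]
    intro v hv hcon
    exact absurd (Nb_le hcon) (not_le.2 (hF v hv))
  · rintro y ⟨⟨z, rfl, hz⟩, hy⟩
    simp only [mem_iInter, mem_compl_iff, mem_setOf_eq, mem_pt] at hy
    exact ⟨z, rfl, hF2 z hz hy⟩

/-- every neighbourhood of the point at infinity contains all points of high level -/
lemma nhds_inf {c : Om → U → Option ℕ} [CompactSpace (KK c)] (V : Set (KK c)) (hV : IsOpen V)
    (h : inf ∈ V) : ∃ γ : Om, ∀ u : U, γ ≤ u.1 → (pt u : KK c) ∈ V := by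
  obtain ⟨T, hT⟩ := hV.isClosed_compl.isCompact.elim_finite_subcover
    (fun w : U => {y : KK c | Mem y w}) (fun w => (clopen_mem c w).2) (by
      intro z hz
      rcases KK_cases z with rfl | ⟨u, rfl⟩
      · exact absurd h hz
      · exact mem_iUnion.2 ⟨u, mem_pt.2 (self_mem_Nb c u)⟩)
  obtain ⟨γ, hγ⟩ := bdd_of_countable (A := Prod.fst '' (T : Set U)) (T.countable_toSet.image _)
  refine ⟨γ, fun u hu => ?_⟩
  by_contra hcon
  have := hT hcon
  simp only [mem_iUnion, exists_prop] at this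
  obtain ⟨w, hw, hw2⟩ := this
  have h1 := Nb_le (mem_pt.1 hw2)
  exact absurd ((hγ w.1 ⟨w, hw, rfl⟩).trans_le hu) (not_lt.2 h1)

open Classical in
/-- the retraction onto the points of level below `δ` and the point at infinity -/
noncomputable def ret (c : Om → U → Option ℕ) (δ : Om) (z : KK c) : KK c :=
  if ∃ u, z = pt u ∧ u.1 < δ then z else inf

lemma ret_lower {c : Om → U → Option ℕ} {δ : Om} {u : U} (h : u.1 < δ) :
    ret c δ (pt u) = pt u := if_pos ⟨u, rfl, h⟩

lemma ret_upper {c : Om → U → Option ℕ} {δ : Om} {u : U} (h : δ ≤ u.1) :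
    ret c δ (pt u) = inf := if_neg (by
      rintro ⟨v, hv, hv2⟩
      rw [← pt_inj hv] at hv2
      exact absurd h (not_le.2 hv2))

lemma ret_inf {c : Om → U → Option ℕ} {δ : Om} : ret c δ inf = inf := if_neg (by
      rintro ⟨v, hv, hv2⟩
      exact pt_ne hv.symm)

lemma mem_of_ret {c : Om → U → Option ℕ} {δ : Om} {z : KK c} {w : U} (h : Mem (ret c δ z) w) :
    Mem z w := by
  rcases KK_cases z with rfl | ⟨u, rfl⟩
  · rw [ret_inf] at h
    exact h
  · rcases lt_or_ge u.1 δ with h1 | h1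
    · rwa [ret_lower h1] at h
    · rw [ret_upper h1] at h
      exact absurd h mem_inf

lemma continuous_ret {S : Set Om} {c : Om → U → Option ℕ} (h : ∀ a, CS S c a (c a)) (δ : Om)
    (hδ : δ ∈ S) : Continuous (ret c δ) := by
  rw [continuous_iff_continuousAt]
  intro z
  rcases KK_cases z with rfl | ⟨u, rfl⟩
  · show Tendsto (ret c δ) (𝓝 inf) (𝓝 (ret c δ inf))
    rw [ret_inf]
    refine (le_nhds_iff' _ _).2 fun w => ?_
    have h1 := (le_nhds_iff' (𝓝 (inf : KK c)) inf).1 le_rfl w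
    rw [Filter.eventually_map]
    filter_upwards [h1] with y hy
    exact ⟨fun h2 => hy.1 (mem_of_ret h2), fun h2 => absurd h2 mem_inf⟩
  · rcases lt_or_ge u.1 δ with h1 | h1
    · refine ContinuousAt.congr (f := id) continuousAt_id ?_
      filter_upwards [(isOpen_lower c δ).mem_nhds ⟨u, rfl, h1⟩] with y hy
      obtain ⟨v, rfl, hv⟩ := hy
      exact (ret_lower hv).symm
    · refine ContinuousAt.congr (f := fun _ => inf) continuousAt_const ?_
      filter_upwards [(isOpen_upper h δ hδ).mem_nhds ⟨u, rfl, h1⟩] with y hy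
      obtain ⟨v, rfl, hv⟩ := hy
      exact (ret_upper hv).symm

lemma countable_range_ret (c : Om → U → Option ℕ) (δ : Om) : (range (ret c δ)).Countable := by
  refine (((countable_below δ).image (fun u => (pt u : KK c))).union
    (countable_singleton inf)).mono ?_
  rintro _ ⟨z, rfl⟩
  rcases KK_cases z with rfl | ⟨u, rfl⟩
  · exact Or.inr ret_inf
  · rcases lt_or_ge u.1 δ with h1 | h1
    · rw [ret_lower h1]
      exact Or.inl ⟨u, h1.le, rfl⟩
    · exact Or.inr (ret_upper h1)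

lemma not_metrizable {S : Set Om} (hS : ∀ b : Om, ∃ s ∈ S, b < s) {c : Om → U → Option ℕ}
    (h : ∀ a, CS S c a (c a)) [CompactSpace (KK c)] :
    ¬ TopologicalSpace.MetrizableSpace (KK c) := by
  intro hm
  letI := TopologicalSpace.metrizableSpaceMetric (KK c)
  obtain ⟨A, hA, hA2⟩ := TopologicalSpace.exists_countable_dense (KK c)
  have h2 : {u : U | (pt u : KK c) ∈ A}.Countable :=
    hA.preimage_of_injOn (f := fun u : U => (pt u : KK c)) (fun u _ v _ h => pt_inj h)
  obtain ⟨b, hb⟩ := bdd_of_countable (h2.image Prod.fst)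
  obtain ⟨δ, hδ, hbδ⟩ := hS b
  obtain ⟨y, ⟨v, rfl, hv⟩, hyA⟩ := hA2.inter_open_nonempty _ (isOpen_upper h δ hδ)
    ⟨pt (δ, 0), (δ, 0), rfl, le_rfl⟩
  have := hb v.1 ⟨v, hyA, rfl⟩
  exact absurd (this.trans hbδ) (not_lt.2 hv)

end Pool.Agent.Y449.SOK
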