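import Mathlib
import Pool.Agent.Y449.SOK.Space
import Pool.Agent.Y449.SOK.Defs

set_option autoImplicit false
set_option linter.all false

open Set Topology Filter

namespace Pool.Agent.Y449.SOK

open Pool.Agent.Helper647.GR.ForceCH (Om)
open Pool.Agent.Helper647.MM (mk_Om countable_Iio countable_Iic bdd_of_countable Lim IsClubS
  DiamondS club_closure exists_rec U exists_cyl thin exists_gt_Om mk_U exists_enc countable_below)

lemma exists_le_max {δ : Om} (h : ∃ b, b < δ) (B : Finset Om) (hB : ∀ b ∈ B, b < δ) :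
    ∃ ξ < δ, ∀ b ∈ B, b ≤ ξ := by
  classical
  induction B using Finset.induction_on with
  | empty =>
    obtain ⟨b, hb⟩ := h
    exact ⟨b, hb, by simp⟩
  | insert b B hb ih =>
    obtain ⟨ξ, hξ, hξ2⟩ := ih fun x hx => hB x (Finset.mem_insert_of_mem hx)
    refine ⟨max ξ b, max_lt hξ (hB b (Finset.mem_insert_self _ _)), fun x hx => ?_⟩
    rcases Finset.mem_insert.1 hx with rfl | hx
    · exact le_max_right _ _
    · exact (hξ2 x hx).trans (le_max_left _ _)

/-- a point outside a closed set has a bound -/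
lemma exists_bound {c : Om → U → Option ℕ} [CompactSpace (KK c)] {n : ℕ} (F : Set (Fin n → KK c))
    (hF : IsClosed F) (b : Fin n → KK c) : ∃ γ : Om, b ∉ F → ∀ x : Fin n → KK c,
      (∀ i, x i = b i ∨ (b i = inf ∧ ∃ u, x i = pt u ∧ γ ≤ u.1)) → x ∉ F := by
  classical
  by_cases hb : b ∈ F
  · exact ⟨Classical.arbitrary Om, fun h => absurd hb h⟩
  obtain ⟨I, V, hV, hVF⟩ := isOpen_pi_iff.1 hF.isOpen_compl b hb
  have h1 : ∀ i, ∃ γ : Om, i ∈ I → b i = inf → ∀ u : U, γ ≤ u.1 → (pt u : KK c) ∈ V i := by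
    intro i
    by_cases h : i ∈ I ∧ b i = inf
    · obtain ⟨γ, hγ⟩ := nhds_inf (V i) (hV i h.1).1 (h.2 ▸ (hV i h.1).2)
      exact ⟨γ, fun _ _ => hγ⟩
    · exact ⟨Classical.arbitrary Om, fun h1 h2 => absurd ⟨h1, h2⟩ h⟩
  choose γ hγ using h1
  obtain ⟨γ0, hγ0⟩ := bdd_of_countable (countable_range γ)
  refine ⟨γ0, fun _ x hx hxF => ?_⟩
  have h2 : x ∈ (I : Set (Fin n)).pi V := by
    intro i hi
    rcases hx i with h | ⟨h, u, hu, hu2⟩
    · rw [h]
      exact (hV i hi).2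
    · rw [hu]
      exact hγ i hi h u ((hγ0 _ ⟨i, rfl⟩).le.trans hu2)
  exact hVF h2 hxF

/-- the space is a Sokolov space -/
lemma sokolov {S : Set Om} (hS : ∀ E : Set Om, IsClubS E → ∃ a ∈ E, a ∈ S)
    {c : Om → U → Option ℕ} (h : ∀ a, CS S c a (c a)) [CompactSpace (KK c)] :
    Sokolov (KK c) := by
  classical
  intro F hF
  choose γ hγ using fun (n : ℕ) (b : Fin n → KK c) => exists_bound (F n) (hF n) b
  let L : Om → Set (KK c) := fun ξ => {inf} ∪ (fun u : U => (pt u : KK c)) '' {u : U | u.1 ≤ ξ}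
  have hL : ∀ ξ, (L ξ).Countable := fun ξ =>
    (countable_singleton _).union ((countable_below ξ).image _)
  have hG : ∀ ξ : Om, ∃ β : Om, ∀ n, ∀ b : Fin n → KK c, (∀ i, b i ∈ L ξ) → γ n b < β := by
    intro ξ
    obtain ⟨β, hβ⟩ := bdd_of_countable (A := ⋃ n, (γ n) '' (univ.pi fun _ => L ξ))
      (countable_iUnion fun n => (Set.countable_univ_pi fun _ => hL ξ).image _)
    exact ⟨β, fun n b hb => hβ _ (mem_iUnion.2 ⟨n, b, fun i _ => hb i, rfl⟩)⟩
  choose G hG using hG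
  obtain ⟨δ, ⟨hδlim, hδG⟩, hδS⟩ := hS _ (club_closure G)
  refine ⟨ret c δ, continuous_ret h δ hδS, ⟨(fun x => {x}) '' range (ret c δ),
    (countable_range_ret c δ).image _, ?_, ?_⟩, ?_⟩
  · rintro _ ⟨x, hx, rfl⟩
    exact singleton_subset_iff.2 hx
  · intro x hx V _ hxV
    exact ⟨{x}, ⟨x, hx, rfl⟩, rfl, singleton_subset_iff.2 hxV⟩
  · intro n x hx
    by_contra hcon
    let lev : KK c → Finset Om := fun z => if hz : ∃ u, z = pt u ∧ u.1 < δ then {hz.choose.1} else ∅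
    obtain ⟨ξ, hξ, hξ2⟩ := exists_le_max hδlim.1 (Finset.univ.biUnion fun i => lev (x i)) (by
      intro b hb
      simp only [Finset.mem_biUnion, Finset.mem_univ, true_and] at hb
      obtain ⟨i, hi⟩ := hb
      by_cases hz : ∃ u, x i = pt u ∧ u.1 < δ
      · simp only [lev, dif_pos hz, Finset.mem_singleton] at hi
        rw [hi]
        exact hz.choose_spec.2
      · simp only [lev, dif_neg hz] at hi
        exact absurd hi (Finset.notMem_empty _))
    have hlev : ∀ i, ∀ u : U, x i = pt u → u.1 < δ → u.1 ≤ ξ := by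
      intro i u hu hu2
      refine hξ2 u.1 ?_
      simp only [Finset.mem_biUnion, Finset.mem_univ, true_and]
      refine ⟨i, ?_⟩
      have hz : ∃ u, x i = pt u ∧ u.1 < δ := ⟨u, hu, hu2⟩
      simp only [lev, dif_pos hz, Finset.mem_singleton]
      exact congrArg Prod.fst (pt_inj (hu.symm.trans hz.choose_spec.1))
    have hyL : ∀ i, ret c δ (x i) ∈ L ξ := by
      intro i
      rcases KK_cases (x i) with hi | ⟨u, hi⟩
      · rw [hi, ret_inf]
        exact Or.inl rfl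
      · rcases lt_or_ge u.1 δ with h1 | h1
        · rw [hi, ret_lower h1]
          exact Or.inr ⟨u, hlev i u hi h1, rfl⟩
        · rw [hi, ret_upper h1]
          exact Or.inl rfl
    refine hγ n _ hcon x (fun i => ?_) hx
    rcases KK_cases (x i) with hi | ⟨u, hi⟩
    · rw [hi, ret_inf]
      exact Or.inl rfl
    · rcases lt_or_ge u.1 δ with h1 | h1
      · rw [hi, ret_lower h1]
        exact Or.inl rfl
      · rw [hi, ret_upper h1]
        exact Or.inr ⟨rfl, u, rfl, ((hG ξ n _ hyL).trans (hδG ξ hξ)).le.trans h1⟩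

/-- a locally constant function with prescribed values at finitely many points -/
lemma exists_fn {c : Om → U → Option ℕ} (n : ℕ) (z : ℕ → KK c) (q : ℕ → ℝ)
    (hz : ∀ i < n, ∀ j < n, z i = z j → i = j) :
    ∃ (T : Finset U) (g : C(KK c, ℝ)), ∀ j < n, ∀ y : KK c,
      (∀ w ∈ T, (Mem y w ↔ Mem (z j) w)) → g y = q j := by
  classical
  have hw : ∀ i j, ∃ w, i < n → j < n → i ≠ j → ¬ (Mem (z i) w ↔ Mem (z j) w) := by
    intro i j
    by_cases h : i < n ∧ j < n ∧ i ≠ j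
    · obtain ⟨w, _, hw⟩ := sep (fun h' => h.2.2 (hz i h.1 j h.2.1 h'))
      exact ⟨w, fun _ _ _ => hw⟩
    · exact ⟨Classical.arbitrary U, fun h1 h2 h3 => absurd ⟨h1, h2, h3⟩ h⟩
  choose w hw using hw
  let T : Finset U := (Finset.range n ×ˢ Finset.range n).image fun p => w p.1 p.2
  let ρ : KK c → (T → Bool) := fun y t => Phi c y t.1
  have hρ : Continuous ρ := continuous_pi fun t => (continuous_apply t.1).comp (cont_Phi c)
  let g0 : (T → Bool) → ℝ := fun b => if h : ∃ j, j < n ∧ ρ (z j) = b then q h.choose else 0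
  refine ⟨T, ⟨fun y => g0 (ρ y), (continuous_of_discreteTopology (f := g0)).comp hρ⟩, ?_⟩
  intro j hj y hy
  have h1 : ρ y = ρ (z j) := funext fun t => Phi_eq.2 (hy t.1 t.2)
  show g0 (ρ y) = q j
  have h2 : ∃ j, j < n ∧ ρ (z j) = ρ y := ⟨j, hj, h1.symm⟩
  have h3 : g0 (ρ y) = q h2.choose := dif_pos h2
  rw [h3]
  obtain ⟨h4, h5⟩ := h2.choose_spec
  congr 1
  by_contra hne
  refine hw _ _ h4 hj hne ?_
  have h6 := h5.trans h1
  have h7 : w h2.choose j ∈ T := Finset.mem_image.2 ⟨(h2.choose, j),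
    Finset.mem_product.2 ⟨Finset.mem_range.2 h4, Finset.mem_range.2 hj⟩, rfl⟩
  exact Phi_eq.1 (congrFun h6 ⟨_, h7⟩)

/-- the main lemma: point-finite families are countable -/
lemma main_count (S₀ : Set Om) (hS₀ : ∀ b : Om, ∃ s ∈ S₀, b < s) (A : Om → Set Om)
    (enc : Finset (ℕ × U) → Om) (henc : Function.Injective enc)
    (hA : ∀ (W : Set (Finset (ℕ × U))) (E : Set Om), IsClubS E →
      ∃ a ∈ E, a ∉ S₀ ∧ A a = enc '' W ∩ Iio a)
    (c : Om → U → Option ℕ)
    (hc : ∀ a, Q S₀ (fun a => {t | enc t < a ∧ enc t ∈ A a}) a c (c a))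
    (𝒰 : Set (Set C(KK c, ℝ)))
    (hO : ∀ W ∈ 𝒰, IsOpen[TopologicalSpace.induced (fun f : C(KK c, ℝ) => (⇑f : KK c → ℝ))
                (inferInstance : TopologicalSpace (KK c → ℝ))] W ∧ W.Nonempty)
    (hF : ∀ f : C(KK c, ℝ), {W | W ∈ 𝒰 ∧ f ∈ W}.Finite) : 𝒰.Countable := by
  classical
  by_contra hunc
  haveI : Nonempty (KK c) := ⟨inf⟩
  have hex : ∀ W : Set C(KK c, ℝ), ∃ (n : ℕ) (x : ℕ → KK c) (q : ℕ →₀ ℚ), W ∈ 𝒰 →
      (∀ i < n, ∀ j < n, x i = x j → i = j) ∧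
      ∀ g : C(KK c, ℝ), (∀ j < n, g (x j) = (q j : ℝ)) → g ∈ W := by
    intro W
    by_cases hW : W ∈ 𝒰
    · obtain ⟨n, x, q, h⟩ := exists_cyl W (hO W hW).1 (hO W hW).2
      exact ⟨n, x, q, fun _ => h⟩
    · exact ⟨0, fun _ => inf, 0, fun h => absurd h hW⟩
  choose nn x qq hx using hex
  obtain ⟨n, q, hnq⟩ : ∃ n q, ¬ {W ∈ 𝒰 | nn W = n ∧ qq W = q}.Countable := by
    by_contra hcon
    push Not at hcon
    refine hunc ((countable_iUnion fun n => countable_iUnion fun q => hcon n q).mono ?_)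
    intro W hW
    simp only [mem_iUnion]
    exact ⟨nn W, qq W, hW, rfl, rfl⟩
  obtain ⟨S', hS'1, hS'2, hS'3⟩ := thin x _ hnq n
  let E : Set ℕ := {j | j < n ∧ ∀ y, {α ∈ S' | x α j = y}.Countable}
  let S : Set (Set C(KK c, ℝ)) := {α ∈ S' | ∀ j ∈ E, x α j ≠ inf}
  have hSunc : ¬ S.Countable := by
    intro hcon
    refine hS'2 ((hcon.union (countable_iUnion fun j : E => j.2.2 inf)).mono ?_)
    intro α hα
    by_cases h : ∀ j ∈ E, x α j ≠ inf
    · exact Or.inl ⟨hα, h⟩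
    · push Not at h
      obtain ⟨j, hj, hj2⟩ := h
      exact Or.inr (mem_iUnion.2 ⟨⟨j, hj⟩, hα, hj2⟩)
  have hSS : ∀ α ∈ S, α ∈ 𝒰 ∧ nn α = n ∧ qq α = q := fun α hα => hS'1 hα.1
  have hSx : ∀ α ∈ S, ∀ i < n, ∀ j < n, x α i = x α j → i = j := by
    intro α hα
    have := (hx α (hSS α hα).1).1
    rwa [(hSS α hα).2.1] at this
  have hSg : ∀ α ∈ S, ∀ g : C(KK c, ℝ), (∀ j < n, g (x α j) = (q j : ℝ)) → g ∈ α := by
    intro α hα
    have := (hx α (hSS α hα).1).2
    rwa [(hSS α hα).2.1, (hSS α hα).2.2] at this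
  -- the constants
  have hconst : ∀ j, ∃ y, j < n → j ∉ E → ∀ α ∈ S, x α j = y := by
    intro j
    by_cases h : j < n ∧ j ∉ E
    · rcases hS'3 j h.1 with ⟨y, hy⟩ | h'
      · exact ⟨y, fun _ _ α hα => hy α hα.1⟩
      · exact absurd ⟨h.1, h'⟩ h.2
    · exact ⟨inf, fun h1 h2 => absurd ⟨h1, h2⟩ h⟩
  choose y hy using hconst
  -- the coded tuples
  have hpt : ∀ α ∈ S, ∀ j ∈ E, ∃ u, x α j = pt u := by
    intro α hα j hj
    rcases KK_cases (x α j) with h | h
    · exact absurd h (hα.2 j hj)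
    · exact h
  have hu : ∀ (α : Set C(KK c, ℝ)) (j : ℕ), ∃ u, α ∈ S → j ∈ E → x α j = pt u := by
    intro α j
    by_cases h : α ∈ S ∧ j ∈ E
    · obtain ⟨u, hu⟩ := hpt α h.1 j h.2
      exact ⟨u, fun _ _ => hu⟩
    · exact ⟨Classical.arbitrary U, fun h1 h2 => absurd ⟨h1, h2⟩ h⟩
  choose uu huu using hu
  let t : Set C(KK c, ℝ) → Finset (ℕ × U) := fun α =>
    ((Finset.range n).filter (· ∈ E)).image fun j => (j, uu α j)
  have ht : ∀ α p, p ∈ t α ↔ ∃ j, j ∈ E ∧ p = (j, uu α j) := by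
    intro α p
    simp only [t, Finset.mem_image, Finset.mem_filter, Finset.mem_range]
    constructor
    · rintro ⟨j, ⟨_, hj⟩, rfl⟩
      exact ⟨j, hj, rfl⟩
    · rintro ⟨j, hj, rfl⟩
      exact ⟨j, ⟨hj.1, hj⟩, rfl⟩
  -- unboundedness
  have hesc : ∀ γ : Om, ∃ α ∈ S, ∀ p ∈ t α, γ < p.2.1 := by
    intro γ
    by_contra hcon
    push Not at hcon
    refine hSunc (((countable_iUnion fun j : E => ((countable_below γ).biUnion
      fun u _ => j.2.2 (pt u)))).mono ?_)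
    intro α hα
    obtain ⟨p, hp, hpγ⟩ := hcon α hα
    obtain ⟨j, hj, rfl⟩ := (ht α p).1 hp
    refine mem_iUnion.2 ⟨⟨j, hj⟩, mem_iUnion₂.2 ⟨uu α j, hpγ, hα.1, huu α j hα hj⟩⟩
  choose αγ hαS hαγ using hesc
  choose sγ hsS hsγ using hS₀
  have hbd : ∀ γ : Om, ∃ b : Om, enc (t (αγ γ)) < b ∧ (∀ p ∈ t (αγ γ), p.2.1 < b) ∧
      (∀ j < n, ∀ u, y j = pt u → u.1 < b) ∧ sγ γ < b := by
    intro γ
    obtain ⟨b, hb⟩ := bdd_of_countable (A := {enc (t (αγ γ))} ∪
      ((t (αγ γ)).image fun p => p.2.1 : Finset Om) ∪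
      {b | ∃ j, ∃ u, y j = pt u ∧ b = u.1} ∪ {sγ γ}) (by
        refine (((countable_singleton _).union (Finset.countable_toSet _)).union ?_).union
          (countable_singleton _)
        have : {b : Om | ∃ j, ∃ u, y j = pt u ∧ b = u.1} ⊆
            range (fun j : ℕ => if h : ∃ u, y j = pt u then h.choose.1 else
              Classical.arbitrary Om) := by
          rintro b ⟨j, u, hju, rfl⟩
          refine ⟨j, ?_⟩
          have h : ∃ u, y j = pt u := ⟨u, hju⟩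
          simp only [dif_pos h]
          have h2 := h.choose_spec
          have h3 : (pt u : KK c) = pt h.choose := hju.symm.trans h2
          rw [← pt_inj h3]
        exact (countable_range _).mono this)
    refine ⟨b, hb _ (Or.inl (Or.inl (Or.inl rfl))),
      fun p hp => hb _ (Or.inl (Or.inl (Or.inr ?_))),
      fun j _ u hu => hb _ (Or.inl (Or.inr ⟨j, u, hu, rfl⟩)), hb _ (Or.inr rfl)⟩
    exact Finset.mem_coe.2 (Finset.mem_image.2 ⟨p, hp, rfl⟩)
  choose h hh1 hh2 hh3 hh4 using hbd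
  obtain ⟨a, ⟨ha1, ha2⟩, haS, haA⟩ := hA (t '' S) _ (club_closure h)
  obtain ⟨b0, hb0⟩ := ha1.1
  have hD : ∀ s : Finset (ℕ × U), (enc s < a ∧ enc s ∈ A a) ↔ (enc s < a ∧ ∃ α ∈ S, t α = s) := by
    intro s
    rw [haA]
    constructor
    · rintro ⟨h1, ⟨s', ⟨α, hα, rfl⟩, hs'⟩, _⟩
      exact ⟨h1, α, hα, henc hs'⟩
    · rintro ⟨h1, α, hα, rfl⟩
      exact ⟨h1, ⟨t α, ⟨α, hα, rfl⟩, rfl⟩, h1⟩
  obtain ⟨_, _, hQ⟩ := hc a
  obtain ⟨l, hl1, hl2, hl3⟩ := hQ haS ⟨⟨b0, hb0⟩, fun γ hγ => ⟨sγ γ, hsS γ, hsγ γ,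
      (hh4 γ).trans (ha2 γ hγ)⟩⟩ (by
      intro s hs p hp p' hp' hpp
      obtain ⟨_, α, hα, rfl⟩ := (hD s).1 hs
      obtain ⟨j, hj, rfl⟩ := (ht α p).1 hp
      obtain ⟨j', hj', rfl⟩ := (ht α p').1 hp'
      have h1 : uu α j = uu α j' := hpp
      have h2 : x α j = x α j' := by rw [huu α j hα hj, huu α j' hα hj', h1]
      rw [hSx α hα j hj.1 j' hj'.1 h2]) (by
      intro γ hγ
      exact ⟨t (αγ γ), (hD _).2 ⟨(hh1 γ).trans (ha2 γ hγ), αγ γ, hαS γ, rfl⟩, fun p hp =>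
        ⟨hαγ γ p hp, (hh2 γ p hp).trans (ha2 γ hγ)⟩⟩)
  have hlα : ∀ k, ∃ α ∈ S, t α = l k := fun k => ((hD (l k)).1 (hl1 k)).2
  choose αk hαk1 hαk2 using hlα
  -- the limit points
  let z : ℕ → KK c := fun j => if j ∈ E then pt (a, j) else y j
  have hz : ∀ i < n, ∀ j < n, z i = z j → i = j := by
    intro i hi j hj hij
    have hyne : ∀ i < n, ∀ j, y i ≠ pt (a, j) := by
      intro i hi j hcon
      have := hh3 b0 i hi _ hcon
      exact absurd (this.trans (ha2 b0 hb0)) (lt_irrefl _)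
    by_cases hiE : i ∈ E <;> by_cases hjE : j ∈ E
    · simp only [z, if_pos hiE, if_pos hjE] at hij
      exact congrArg Prod.snd (pt_inj hij)
    · simp only [z, if_pos hiE, if_neg hjE] at hij
      exact absurd hij.symm (hyne j hj i)
    · simp only [z, if_neg hiE, if_pos hjE] at hij
      exact absurd hij (hyne i hi j)
    · simp only [z, if_neg hiE, if_neg hjE] at hij
      rw [← hy i hi hiE (αk 0) (hαk1 0), ← hy j hj hjE (αk 0) (hαk1 0)] at hij
      exact hSx (αk 0) (hαk1 0) i hi j hj hij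
  obtain ⟨T, g, hg⟩ := exists_fn n z (fun j => (q j : ℝ)) hz
  have hLC : ∀ a, LC c a (c a) := fun a => (hc a).1
  -- convergence
  have hconv : ∀ w : U, ∃ m, ∀ k ≥ m, ∀ j < n, (Mem (x (αk k) j) w ↔ Mem (z j) w) := by
    intro w
    have h1 : ∀ j, ∃ m, ∀ k ≥ m, j < n → (Mem (x (αk k) j) w ↔ Mem (z j) w) := by
      intro j
      by_cases hjE : j ∈ E
      · obtain ⟨F, hF1, hF2⟩ := decide_all hLC (a, j) w
        obtain ⟨ξ, hξ, hξ2⟩ := exists_le_max ⟨b0, hb0⟩ (F.image Prod.fst) (by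
          intro b hb
          obtain ⟨v, hv, rfl⟩ := Finset.mem_image.1 hb
          exact hF1 v hv)
        obtain ⟨m, hm⟩ := hl3 ξ hξ
        refine ⟨m, fun k hk hj => ?_⟩
        have hp : (j, uu (αk k) j) ∈ l k := by
          rw [← hαk2 k]
          exact (ht _ _).2 ⟨j, hjE, rfl⟩
        have h3 := hl2 k _ hp
        simp only [z, if_pos hjE]
        rw [huu (αk k) j (hαk1 k) hjE, mem_pt, mem_pt]
        refine hF2 _ (Or.inr h3) fun v hv hcon => ?_
        have h4 := hm k hk _ hp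
        have h5 := hξ2 v.1 (Finset.mem_image.2 ⟨v, hv, rfl⟩)
        exact absurd (h4.trans_le (Nb_le hcon)) (not_lt.2 h5)
      · refine ⟨0, fun k _ hj => ?_⟩
        simp only [z, if_neg hjE]
        rw [hy j hj hjE (αk k) (hαk1 k)]
    choose m hm using h1
    refine ⟨(Finset.range n).sup m, fun k hk j hj => hm j k ?_ hj⟩
    exact (Finset.le_sup (f := m) (Finset.mem_range.2 hj)).trans hk
  have hconv2 : ∃ m, ∀ k ≥ m, ∀ w ∈ T, ∀ j < n, (Mem (x (αk k) j) w ↔ Mem (z j) w) := by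
    choose m hm using hconv
    refine ⟨T.sup m, fun k hk w hw j hj => hm w k ?_ j hj⟩
    exact (Finset.le_sup (f := m) hw).trans hk
  obtain ⟨m, hm⟩ := hconv2
  have hgα : ∀ k ≥ m, g ∈ αk k := by
    intro k hk
    refine hSg (αk k) (hαk1 k) g fun j hj => ?_
    exact hg j hj _ fun w hw => hm k hk w hw j hj
  have hfin := hF g
  by_cases hEne : E.Nonempty
  · -- infinitely many sets
    obtain ⟨j, hj⟩ := hEne
    have h1 : ∀ W ∈ {W | W ∈ 𝒰 ∧ g ∈ W}, ∀ᶠ k in atTop, αk k ≠ W := by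
      intro W _
      by_cases hW : ∃ k, αk k = W
      · obtain ⟨k0, hk0⟩ := hW
        have hp : (j, uu W j) ∈ l k0 := by
          rw [← hαk2 k0, hk0]
          exact (ht _ _).2 ⟨j, hj, rfl⟩
        obtain ⟨m', hm'⟩ := hl3 (uu W j).1 (hl2 k0 _ hp).1
        filter_upwards [eventually_ge_atTop m'] with k hk hcon
        have hp' : (j, uu W j) ∈ l k := by
          rw [← hαk2 k, hcon]
          exact (ht _ _).2 ⟨j, hj, rfl⟩
        exact absurd (hm' k hk _ hp') (lt_irrefl _)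
      · push Not at hW
        exact Eventually.of_forall hW
    have h2 := (Filter.eventually_all_finite hfin).2 h1
    obtain ⟨k, hk, hk2⟩ := (h2.and (eventually_ge_atTop m)).exists
    exact hk (αk k) ⟨(hSS _ (hαk1 k)).1, hgα k hk2⟩ rfl
  · -- all the points are constant
    rw [not_nonempty_iff_eq_empty] at hEne
    refine hSunc (hfin.countable.mono ?_)
    intro α hα
    refine ⟨(hSS α hα).1, hSg α hα g fun j hj => ?_⟩
    have hjE : j ∉ E := by rw [hEne]; exact fun h => h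
    refine hg j hj _ fun w _ => ?_
    simp only [z, if_neg hjE]
    rw [hy j hj hjE α hα]

/-- an injective coding of finite sets of labelled points by countable ordinals which misses one
ordinal -/
lemma exists_enc' : ∃ (e : Finset (ℕ × U) → Om) (o : Om), Function.Injective e ∧ ∀ t, e t ≠ o := by
  classical
  obtain ⟨e, he⟩ := exists_enc
  let sh : (ℕ × U) ↪ (ℕ × U) := ⟨fun p => (p.1 + 1, p.2), by
    rintro ⟨a, b⟩ ⟨a', b'⟩ h
    simp only [Prod.mk.injEq, add_left_inj] at h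
    rw [h.1, h.2]⟩
  refine ⟨fun t => e (t.map sh), e {(0, Classical.arbitrary U)}, ?_, ?_⟩
  · intro t t' h
    exact Finset.map_injective sh (he h)
  · intro t h
    have h1 := he h
    have h2 : ((0, Classical.arbitrary U) : ℕ × U) ∈ t.map sh := by
      rw [h1]; exact Finset.mem_singleton_self _
    obtain ⟨p, _, hp⟩ := Finset.mem_map.1 h2
    have := congrArg Prod.fst hp
    simp [sh] at this

lemma isClubS_inter_Ioi {E : Set Om} (hE : IsClubS E) (o : Om) : IsClubS (E ∩ Ioi o) := by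
  constructor
  · intro b
    obtain ⟨a, ha, hb⟩ := hE.1 (max b o)
    exact ⟨a, ⟨ha, (le_max_right _ _).trans_lt hb⟩, (le_max_left _ _).trans_lt hb⟩
  · intro a h0 ha
    refine ⟨hE.2 a h0 fun b hb => ?_, ?_⟩
    · obtain ⟨c, hc, h1, h2⟩ := ha b hb
      exact ⟨c, hc.1, h1, h2⟩
    · obtain ⟨b, hb⟩ := h0
      obtain ⟨c, hc, _, h2⟩ := ha b hb
      exact lt_trans hc.2 h2

/-- diamond gives a Sokolov compact space -/
theorem main (hd : DiamondS) : ∃ (X : Type) (_ : TopologicalSpace X), CompactSpace X ∧ T2Space X ∧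
    Sokolov X ∧ CountablePointFiniteCellularity X ∧ ¬ TopologicalSpace.MetrizableSpace X := by
  obtain ⟨A, hA⟩ := hd
  obtain ⟨enc, o, henc, ho⟩ := exists_enc'
  let S : Set Om := {a | o ∈ A a}
  have hS : ∀ E : Set Om, IsClubS E → ∃ a ∈ E, a ∈ S := by
    intro E hE
    obtain ⟨a, ha, haA⟩ := hA {o} _ (isClubS_inter_Ioi hE o)
    refine ⟨a, ha.1, ?_⟩
    show o ∈ A a
    rw [haA]
    exact ⟨rfl, ha.2⟩
  have hS' : ∀ b : Om, ∃ s ∈ S, b < s := by
    intro b
    obtain ⟨a, ⟨_, ha⟩, haS⟩ := hS _ (isClubS_inter_Ioi (club_closure fun x => x) b)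
    exact ⟨a, haS, ha⟩
  have hA' : ∀ (W : Set (Finset (ℕ × U))) (E : Set Om), IsClubS E →
      ∃ a ∈ E, a ∉ S ∧ A a = enc '' W ∩ Iio a := by
    intro W E hE
    obtain ⟨a, ha, haA⟩ := hA (enc '' W) E hE
    refine ⟨a, ha, ?_, haA⟩
    intro hcon
    have h1 : o ∈ A a := hcon
    rw [haA] at h1
    obtain ⟨⟨t, _, ht⟩, _⟩ := h1
    exact ho t ht
  obtain ⟨c, hc⟩ := exists_space S (fun a => {t | enc t < a ∧ enc t ∈ A a})
  haveI : CompactSpace (KK c) := compact_KK fun a => (hc a).1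
  exact ⟨KK c, inferInstance, inferInstance, inferInstance, sokolov hS fun a => (hc a).2.1,
    (cpfc_iff _).2 (main_count S hS' A enc henc hA' c hc), not_metrizable hS' fun a => (hc a).2.1⟩

end Pool.Agent.Y449.SOK
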