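import Mathlib
import Pool.Agent.Helper647.MM.PosSide
import Pool.Agent.H162R3.SK.TaskTightProof
import Pool.Agent.Y449.SOK.Defs

set_option autoImplicit false
set_option linter.all false

open Set Topology Cardinal

namespace Pool.Agent.Y449.SOK

open Pool.Agent.Helper647.FU (Compat CCC MeetsAll MA1 CTight ThinFamily PFA)
open Pool.Agent.Helper647.MM.Pos (reduction_Iio reduction_bdd exists_pairs ccc_tight thin_of_tight
  not_cpfc_of_thin)

abbrev Om1 : Type := (ℵ₁ : Cardinal.{0}).ord.ToType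

theorem Sokolov.sok {X : Type} [TopologicalSpace X] (h : Sokolov X) :
    Pool.Agent.H162R3.SK.Sok X := by
  intro F hF
  obtain ⟨f, hf, ⟨N, hN, hN1, hN2⟩, hfF⟩ := h F hF
  refine ⟨f, hf, ⟨N, hN, fun x hx V hV hxV => ?_⟩, hfF⟩
  obtain ⟨M, hM, hxM, hMV⟩ := hN2 x hx V hV hxV
  exact ⟨M, hM, hxM, subset_inter hMV (hN1 M hM)⟩

theorem Sokolov.ctight {X : Type} [TopologicalSpace X] [CompactSpace X] [T2Space X]
    (h : Sokolov X) : CTight X :=
  Pool.Agent.H162R3.SK.TightN.taskTight X h.sok

/-- a map fixing the points of a countable set -/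
theorem Sokolov.fix {X : Type} [TopologicalSpace X] [T2Space X] (h : Sokolov X)
    (A : Set X) (hA : A.Countable) :
    ∃ f : X → X, Continuous f ∧ (∀ x ∈ closure A, f x = x) ∧
      ∃ N : Set (Set X), N.Countable ∧ ∀ x ∈ range f, ∀ V : Set X, IsOpen V → x ∈ V →
        ∃ M ∈ N, x ∈ M ∧ M ⊆ V := by
  rcases A.eq_empty_or_nonempty with rfl | hne
  · obtain ⟨f, hf, ⟨N, hN, hN1, hN2⟩, hfF⟩ := h (fun n => univ) (fun n => isClosed_univ)
    exact ⟨f, hf, by simp, N, hN, hN2⟩
  obtain ⟨e, rfl⟩ := hA.exists_eq_range hne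
  obtain ⟨f, hf, ⟨N, hN, hN1, hN2⟩, hfF⟩ := h (fun n => {fun i : Fin n => e i})
    (fun n => isClosed_singleton)
  refine ⟨f, hf, ?_, N, hN, hN2⟩
  have h1 : ∀ i, f (e i) = e i := by
    intro i
    have h2 : (fun j : Fin (i + 1) => f (e j)) = fun j : Fin (i + 1) => e j :=
      hfF (i + 1) (fun j => e j) rfl
    exact congrFun h2 ⟨i, Nat.lt_succ_self i⟩
  have h3 : closure (range e) ⊆ {x | f x = x} := by
    refine closure_minimal ?_ (isClosed_eq hf continuous_id)
    rintro _ ⟨i, rfl⟩
    exact h1 i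
  exact fun x hx => h3 hx

/-- countably many functions separate the points of the closure of a countable set -/
theorem Sokolov.sep {X : Type} [TopologicalSpace X] [CompactSpace X] [T2Space X]
    (h : Sokolov X) (A : Set X) (hA : A.Countable) :
    ∃ G : ℕ → C(X, ℝ), ∀ x ∈ closure A, ∀ y ∈ closure A, x ≠ y → ∃ n, 1 / 2 < |G n x - G n y| := by
  classical
  haveI : NormalSpace X := inferInstance
  obtain ⟨f, hf, hfA, N, hN, hN2⟩ := h.fix A hA
  let ψ : Set X × Set X → C(X, ℝ) := fun p =>
    if hp : ∃ φ : C(X, ℝ), (∀ x ∈ p.1, φ x = 0) ∧ ∀ x ∈ p.2, φ x = 1 then hp.choose else 0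
  have hc : (insert (0 : C(X, ℝ)) (ψ '' (N ×ˢ N))).Countable := ((hN.prod hN).image ψ).insert _
  obtain ⟨G, hG⟩ := hc.exists_eq_range (insert_nonempty _ _)
  refine ⟨G, fun x hx y hy hxy => ?_⟩
  obtain ⟨u, hxu, hu, v, hyv, hv, huv⟩ := exists_open_nhds_disjoint_closure hxy
  obtain ⟨M1, hM1, hx1, h1⟩ := hN2 x ⟨x, hfA x hx⟩ u hu hxu
  obtain ⟨M2, hM2, hy2, h2⟩ := hN2 y ⟨y, hfA y hy⟩ v hv hyv
  have hex : ∃ φ : C(X, ℝ), (∀ x ∈ (M1, M2).1, φ x = 0) ∧ ∀ x ∈ (M1, M2).2, φ x = 1 := by
    obtain ⟨φ, hφ0, hφ1, -⟩ := exists_continuous_zero_one_of_isClosed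
      (isClosed_closure (s := u)) (isClosed_closure (s := v)) huv
    exact ⟨φ, fun x hx => hφ0 (subset_closure (h1 hx)), fun x hx => hφ1 (subset_closure (h2 hx))⟩
  have hψ : ψ (M1, M2) = hex.choose := dif_pos hex
  have hmem : ψ (M1, M2) ∈ range G := by
    rw [← hG]
    exact mem_insert_of_mem _ ⟨(M1, M2), ⟨hM1, hM2⟩, rfl⟩
  obtain ⟨n, hn⟩ := hmem
  refine ⟨n, ?_⟩
  rw [hn, hψ, hex.choose_spec.1 x hx1, hex.choose_spec.2 y hy2]
  norm_num

theorem CTight.closed {X : Type} [TopologicalSpace X] (h : CTight X) (Y : Set X) :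
    CTight Y := by
  intro A x hx
  have h1 : (x : X) ∈ closure (Subtype.val '' A) :=
    image_closure_subset_closure_image continuous_subtype_val ⟨x, hx, rfl⟩
  obtain ⟨B, hB, hBc, hxB⟩ := h _ _ h1
  refine ⟨Subtype.val ⁻¹' B, ?_, hBc.preimage Subtype.val_injective, ?_⟩
  · intro y hy
    obtain ⟨z, hz, hzy⟩ := hB hy
    rwa [← Subtype.ext hzy]
  · rw [closure_subtype]
    have : Subtype.val '' (Subtype.val ⁻¹' B : Set Y) = B := by
      rw [Subtype.image_preimage_coe]
      refine inter_eq_self_of_subset_right ?_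
      intro b hb
      obtain ⟨z, _, rfl⟩ := hB hb
      exact z.2
    rwa [this]

/-- a closed subspace with few functions -/
theorem reduction {X : Type} [TopologicalSpace X] [CompactSpace X] [T2Space X]
    (h : Sokolov X) (hX : ¬ TopologicalSpace.MetrizableSpace X) :
    ∃ A : Set X, ¬ TopologicalSpace.MetrizableSpace (closure A) ∧
      ∃ g : Om1 → C(closure A, ℝ), ∀ x y, x ≠ y → ∃ i, 1 / 2 < |g i x - g i y| := by
  classical
  -- no countable set is dense
  have h1 : ∀ S : Set X, S.Countable → ∃ x, x ∉ closure S := by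
    intro S hS
    by_contra hcon
    push Not at hcon
    apply hX
    obtain ⟨G, hG⟩ := h.sep S hS
    let F : X → (ℕ → ℝ) := fun x n => G n x
    have hF : Continuous F := continuous_pi fun n => (G n).continuous
    have hinj : Function.Injective F := by
      intro x y hxy
      by_contra hne
      obtain ⟨n, hn⟩ := hG x (hcon x) y (hcon y) hne
      have := congrFun hxy n
      simp only [F] at this
      rw [this, sub_self, abs_zero] at hn
      norm_num at hn
    exact (hF.isClosedEmbedding hinj).isEmbedding.metrizableSpace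
  have hne : Nonempty X := ⟨(h1 ∅ Set.countable_empty).choose⟩
  choose! e he using h1
  -- the sequence
  let a : Om1 → X := (wellFounded_lt (α := Om1)).fix
    (fun α ih => e (Set.range (fun β : Iio α => ih β.1 β.2)))
  have ha : ∀ α, a α = e (Set.range (fun β : Iio α => a β.1)) := by
    intro α
    exact (wellFounded_lt (α := Om1)).fix_eq _ α
  have ha2 : ∀ α, a α ∉ closure (a '' Iio α) := by
    intro α
    have hr : Set.range (fun β : Iio α => a β.1) = a '' Iio α := by
      ext x
      simp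
    have h2 := ha α
    rw [hr] at h2
    rw [h2]
    exact he _ ((reduction_Iio α).image a)
  refine ⟨Set.range a, ?_, ?_⟩
  · intro hmet
    have hcl : IsClosed (closure (Set.range a)) := isClosed_closure
    have hcomp : CompactSpace (closure (Set.range a)) := isCompact_iff_compactSpace.1 hcl.isCompact
    letI : MetricSpace (closure (Set.range a)) := TopologicalSpace.metrizableSpaceMetric _
    have hsc : SecondCountableTopology (closure (Set.range a)) :=
      EMetric.secondCountable_of_sigmaCompact _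
    obtain ⟨b, hbc, -, hb⟩ := TopologicalSpace.exists_countable_basis (closure (Set.range a))
    let a' : Om1 → closure (Set.range a) := fun α => ⟨a α, subset_closure ⟨α, rfl⟩⟩
    obtain ⟨γ0, -⟩ := reduction_bdd ∅ Set.countable_empty
    let f : Set (closure (Set.range a)) → Om1 := fun U =>
      if h : ∃ α, a' α ∈ U then h.choose else γ0
    obtain ⟨γ, hγ⟩ := reduction_bdd (f '' b) (hbc.image f)
    apply ha2 γ
    rw [mem_closure_iff]
    intro o ho hγo
    obtain ⟨U, hU, hγU, hUo⟩ := hb.exists_subset_of_mem_open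
      (show a' γ ∈ (Subtype.val ⁻¹' o) from hγo) (ho.preimage continuous_subtype_val)
    have hex : ∃ α, a' α ∈ U := ⟨γ, hγU⟩
    have hf : a' (f U) ∈ U := by
      have : f U = hex.choose := by
        simp only [f]
        rw [dif_pos hex]
      rw [this]
      exact hex.choose_spec
    exact ⟨a (f U), hUo hf, f U, hγ _ ⟨U, hU, rfl⟩, rfl⟩
  · choose G hG using fun α : Om1 => h.sep (a '' Iio α) ((reduction_Iio α).image a)
    have hcard : #(Om1 × ℕ) ≤ #Om1 := by
      rw [Cardinal.mk_prod, Cardinal.mk_ord_toType]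
      simp only [Cardinal.lift_uzero, Cardinal.mk_nat, Cardinal.lift_aleph0]
      rw [Cardinal.mul_eq_left (Cardinal.aleph0_le_aleph 1) (Cardinal.aleph0_le_aleph 1)
        Cardinal.aleph0_ne_zero]
    obtain ⟨j⟩ : Nonempty (Om1 × ℕ ↪ Om1) := Cardinal.le_def _ _ |>.1 hcard
    obtain ⟨γ0, -⟩ := reduction_bdd ∅ Set.countable_empty
    haveI : Nonempty (Om1 × ℕ) := ⟨(γ0, 0)⟩
    let r : Om1 → Om1 × ℕ := Function.invFun j
    have hr : ∀ p, r (j p) = p := fun p => Function.leftInverse_invFun j.injective p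
    refine ⟨fun i => (G (r i).1 (r i).2).restrict (closure (range a)), fun x y hxy => ?_⟩
    obtain ⟨B1, hB1, hB1c, hx⟩ := h.ctight (range a) x x.2
    obtain ⟨B2, hB2, hB2c, hy⟩ := h.ctight (range a) y y.2
    have hsub : ∃ γ : Om1, B1 ∪ B2 ⊆ a '' Iio γ := by
      have h3 : ∀ b ∈ B1 ∪ B2, ∃ α, a α = b := by
        rintro b (hb | hb)
        · exact hB1 hb
        · exact hB2 hb
      haveI : Nonempty Om1 := ⟨γ0⟩
      choose! s hs using h3
      obtain ⟨γ, hγ⟩ := reduction_bdd (s '' (B1 ∪ B2)) ((hB1c.union hB2c).image s)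
      exact ⟨γ, fun b hb => ⟨s b, hγ _ ⟨b, hb, rfl⟩, hs b hb⟩⟩
    obtain ⟨γ, hγ⟩ := hsub
    have hx' : (x : X) ∈ closure (a '' Iio γ) := closure_mono (subset_union_left.trans hγ) hx
    have hy' : (y : X) ∈ closure (a '' Iio γ) := closure_mono (subset_union_right.trans hγ) hy
    obtain ⟨n, hn⟩ := hG γ x hx' y hy' (fun h' => hxy (Subtype.ext h'))
    refine ⟨j (γ, n), ?_⟩
    show 1 / 2 < |G (r (j (γ, n))).1 (r (j (γ, n))).2 x - G (r (j (γ, n))).1 (r (j (γ, n))).2 y|
    rw [hr]
    exact hn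

/-- Martin's axiom for `ℵ₁` dense sets gives a positive answer -/
theorem positive (hMA : MA1) (X : Type) [TopologicalSpace X] [CompactSpace X] [T2Space X]
    (hs : Sokolov X) (hp : CountablePointFiniteCellularity X) :
    TopologicalSpace.MetrizableSpace X := by
  by_contra hX
  obtain ⟨A, hA, g, hg⟩ := reduction hs hX
  have i1 : CompactSpace (closure A) := isCompact_iff_compactSpace.1 isClosed_closure.isCompact
  have hthin : ThinFamily (closure A) := by
    have hT : CTight (closure A) := CTight.closed hs.ctight _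
    have hT2 : CTight (closure A × closure A) := Pool.Agent.Helper647.FU.J1.CTight.prod hT hT
    obtain ⟨z, hz1, hz2⟩ := exists_pairs (closure A) hA g
    refine thin_of_tight hMA (closure A) g hg z hz1 hz2 ?_
    intro 𝒜 h𝒜
    refine ccc_tight (T := closure A × closure A)
      (fun k => Pool.Agent.Helper647.FU.J1.CTight.pi hT2 k) z
      (fun i p => |g i p.1 - g i p.2|) (fun i => by fun_prop) ?_ 𝒜 h𝒜
    intro i
    have hIio : (Iic i : Set Om1).Countable := by
      rw [← Iio_insert]
      exact ((countable_iff_lt_aleph_one _).2 (mk_Iio_toType_ord_lt i)).insert i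
    refine hIio.mono ?_
    intro a ha
    by_contra hai
    have hlt : i < a := not_le.1 hai
    have h1 : (1:ℝ) / 4 ≤ |g i (z a).1 - g i (z a).2| := ha
    rw [hz2 a i hlt, sub_self, abs_zero] at h1
    norm_num at h1
  obtain ⟨I, z, hI, hz, hf⟩ := hthin
  refine not_cpfc_of_thin X ⟨I, fun i => ((z i).1, (z i).2), hI,
    fun i h => hz i (Subtype.ext h), fun f => ?_⟩ ((cpfc_iff X).1 hp)
  exact hf (f.restrict (closure A))

end Pool.Agent.Y449.SOK
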